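import Pool.Agent.Helper29.MS.H2

/-!
CR, leaf C4: Cauchy's estimate for the derivative of `VV`.
-/

set_option autoImplicit false

namespace Pool.Agent.Helper16.CR

open Complex Filter Topology MeasureTheory Set Metric
open Pool.Agent.Helper13.Bsd Pool.Agent.Helper7.GW Pool.Agent.Helper58.BSD Pool.Agent.Helper29.MS

variable {v : ℝ → ℝ} {G : ℂ → ℂ} {A a η B c : ℝ} {k : ℕ}

theorem vv_diffOn {L : ℂ → ℂ} (hL : Branch v G a L) (κ : ℝ) :
    DifferentiableOn ℂ (VV L κ) {w : ℂ | 0 < w.re} := by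
  unfold VV
  refine DifferentiableOn.div (hL.diff.add_const _).neg differentiableOn_id ?_
  intro w hw h0
  have hw' : 0 < w.re := hw
  rw [h0] at hw'
  simp at hw'

/-- C4. Cauchy's estimate from `vv_growth` (MS/H2.lean) with `σ0 / 2`, discs of radius `σ0 / 2` -/
theorem vv_deriv_growth (hF : Frame v G A a η B c k) {L : ℂ → ℂ} (hL : Branch v G a L) (σ0 : ℝ) (hσ : 0 < σ0) :
    ∃ C : ℝ, 0 ≤ C ∧ ∀ w : ℂ, σ0 ≤ w.re → ‖deriv (VV L (kap G)) w‖ ≤ C * (1 + |w.im|) ^ (-(3 / 4) : ℝ) := by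
  obtain ⟨C, hC, hb⟩ := vv_growth hF hL (σ0 / 2) (half_pos hσ)
  have hR : 0 < σ0 / 2 := half_pos hσ
  refine ⟨C * (1 + σ0 / 2) ^ (3 / 4 : ℝ) / (σ0 / 2), by positivity, fun w hw => ?_⟩
  have hre : ∀ z ∈ closedBall w (σ0 / 2), σ0 / 2 ≤ z.re ∧ |z.im - w.im| ≤ σ0 / 2 := by
    intro z hz
    rw [mem_closedBall, dist_eq_norm] at hz
    have h1 : |(z - w).re| ≤ ‖z - w‖ := Complex.abs_re_le_norm _
    have h2 : |(z - w).im| ≤ ‖z - w‖ := Complex.abs_im_le_norm _
    rw [Complex.sub_re] at h1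
    rw [Complex.sub_im] at h2
    have h3 := (abs_le.1 (h1.trans hz)).1
    exact ⟨by linarith, h2.trans hz⟩
  have hd : DiffContOnCl ℂ (VV L (kap G)) (ball w (σ0 / 2)) := by
    refine (vv_diffOn hL (kap G)).diffContOnCl_ball fun z hz => ?_
    have := (hre z hz).1
    show 0 < z.re
    linarith
  have hs : ∀ z ∈ sphere w (σ0 / 2), ‖VV L (kap G) z‖ ≤
      C * (1 + σ0 / 2) ^ (3 / 4 : ℝ) * (1 + |w.im|) ^ (-(3 / 4) : ℝ) := by
    intro z hz
    obtain ⟨h1, h2⟩ := hre z (sphere_subset_closedBall hz)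
    refine (hb z h1).trans ?_
    rw [mul_assoc]
    refine mul_le_mul_of_nonneg_left ?_ hC
    have hz0 : 0 ≤ |z.im| := abs_nonneg _
    have hw0 : 0 ≤ |w.im| := abs_nonneg _
    have h3 : |w.im| ≤ |z.im| + σ0 / 2 := by
      have e1 : |w.im| ≤ |z.im| + |w.im - z.im| := by
        have := abs_add_le z.im (w.im - z.im)
        rwa [add_sub_cancel] at this
      rw [abs_sub_comm] at e1
      linarith
    have h4 : (1 + |w.im|) / (1 + σ0 / 2) ≤ 1 + |z.im| := by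
      rw [div_le_iff₀ (by positivity)]
      nlinarith [mul_nonneg hz0 hR.le]
    have h5 : 0 < (1 + |w.im|) / (1 + σ0 / 2) := by positivity
    have h6 := Real.rpow_le_rpow_of_nonpos h5 h4 (by norm_num : (-(3 / 4) : ℝ) ≤ 0)
    refine h6.trans (le_of_eq ?_)
    rw [Real.div_rpow (by positivity) (by positivity), Real.rpow_neg (by positivity : (0 : ℝ) ≤ 1 + σ0 / 2),
      div_inv_eq_mul, mul_comm]
  have h := Complex.norm_deriv_le_of_forall_mem_sphere_norm_le hR hd hs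
  refine h.trans (le_of_eq ?_)
  ring

end Pool.Agent.Helper16.CR
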