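import Pool.Agent.Helper76.CR.K2

/-!
CR, leaf K5b: the window statement for the derivative of `VV`.
-/

set_option autoImplicit false

namespace Pool.Agent.Helper16.CR

open Complex Filter Topology MeasureTheory Set Metric
open Pool.Agent.Helper13.Bsd Pool.Agent.Helper7.GW Pool.Agent.Helper58.BSD Pool.Agent.Helper29.MS

variable {v : ℝ → ℝ} {G : ℂ → ℂ} {A a η B c : ℝ} {k : ℕ}

/-- near a zero of order `m` on the line: `L = m log (w - i γ) + O(1)` -/
theorem L_near {L : ℂ → ℂ} (hL : Branch v G a L) (γ : ℝ) (m : ℕ)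
    (g : ℂ → ℂ) (hg : AnalyticAt ℂ g (γ * I)) (hg0 : g (γ * I) ≠ 0)
    (hG : ∀ᶠ w in 𝓝 (γ * I : ℂ), G w = (w - γ * I) ^ m * g w) :
    ∃ ρ C : ℝ, 0 < ρ ∧ 0 ≤ C ∧ ∀ w : ℂ, ‖w - γ * I‖ < ρ → 0 < w.re →
      ‖deriv L w - m / (w - γ * I)‖ ≤ C ∧ √‖w - γ * I‖ * ‖L w‖ ≤ C := by
  obtain ⟨ρ, C, hρ, hC, hD⟩ := deriv_near hL γ m g hg hg0 hG
  set S : Set ℂ := ball (γ * I : ℂ) ρ ∩ {w : ℂ | 0 < w.re} with hS
  have hSc : Convex ℝ S := (convex_ball _ _).inter (convex_halfSpace_re_gt 0)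
  set H : ℂ → ℂ := fun w => L w - m * Complex.log (w - γ * I) with hH
  have hslit : ∀ w ∈ S, w - γ * I ∈ Complex.slitPlane := by
    intro w hw
    left
    have : 0 < w.re := hw.2
    simpa using this
  have hLd : ∀ w ∈ S, DifferentiableAt ℂ L w := fun w hw =>
    hL.diff.differentiableAt ((isOpen_lt continuous_const Complex.continuous_re).mem_nhds hw.2)
  have hHd : ∀ w ∈ S, HasDerivAt H (deriv L w - m / (w - γ * I)) w := by
    intro w hw
    have h1 : HasDerivAt (fun w : ℂ => Complex.log (w - γ * I)) (1 / (w - γ * I)) w :=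
      ((hasDerivAt_id w).sub_const _).clog (hslit w hw)
    have h2 := (hLd w hw).hasDerivAt.sub (h1.const_mul (m : ℂ))
    rw [mul_one_div] at h2
    exact h2
  have hbound : ∀ x ∈ S, ∀ y ∈ S, ‖H y - H x‖ ≤ C * ‖y - x‖ := by
    intro x hx y hy
    refine hSc.norm_image_sub_le_of_norm_hasDerivWithin_le (f' := fun w => deriv L w - m / (w - γ * I))
      (fun w hw => (hHd w hw).hasDerivWithinAt) (fun w hw => hD w ?_ hw.2) hx hy
    have := hw.1
    rwa [mem_ball, dist_eq_norm] at this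
  set w0 : ℂ := γ * I + ((ρ / 2 : ℝ) : ℂ) with hw0
  have hw0S : w0 ∈ S := by
    refine ⟨?_, ?_⟩
    · rw [mem_ball, dist_eq_norm, hw0, add_sub_cancel_left, Complex.norm_real, Real.norm_eq_abs,
        abs_of_pos (by positivity)]
      linarith
    · show 0 < w0.re
      rw [hw0]
      simp
      exact hρ
  refine ⟨ρ, C + (√ρ * (‖H w0‖ + C * (2 * ρ)) + m * (2 + (1 + ρ) ^ 2 + √ρ * Real.pi)), hρ, by positivity, fun w hw hre => ?_⟩
  have hwS : w ∈ S := ⟨by rwa [mem_ball, dist_eq_norm], hre⟩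
  constructor
  · have := hD w hw hre
    have h2 : 0 ≤ √ρ * (‖H w0‖ + C * (2 * ρ)) + m * (2 + (1 + ρ) ^ 2 + √ρ * Real.pi) := by positivity
    linarith
  · have h1 := hbound w0 hw0S w hwS
    have h2 : ‖w - w0‖ ≤ 2 * ρ := by
      have e1 : w - w0 = (w - γ * I) - (w0 - γ * I) := by ring
      rw [e1]
      have e2 := hw0S.1
      rw [mem_ball, dist_eq_norm] at e2
      have := norm_sub_le (w - γ * I) (w0 - γ * I)
      linarith
    have h3 : ‖H w‖ ≤ ‖H w0‖ + C * (2 * ρ) := by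
      have e1 : ‖H w‖ ≤ ‖H w0‖ + ‖H w - H w0‖ := by
        have := norm_add_le (H w0) (H w - H w0)
        rwa [add_sub_cancel] at this
      have e2 := mul_le_mul_of_nonneg_left h2 hC
      linarith
    set r : ℝ := ‖w - γ * I‖ with hr
    have hr0 : 0 < r := by
      rw [hr, norm_pos_iff]
      intro h0
      have h5 := congrArg Complex.re h0
      simp at h5
      linarith
    have hsr : √r ≤ √ρ := Real.sqrt_le_sqrt hw.le
    have hs0 : 0 < √r := Real.sqrt_pos.2 hr0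
    have h4 : √r * ‖Complex.log (w - γ * I)‖ ≤ 2 + (1 + ρ) ^ 2 + √ρ * Real.pi := by
      have e1 : ‖Complex.log (w - γ * I)‖ ≤ |Real.log r| + Real.pi := by
        have e2 := Complex.norm_le_abs_re_add_abs_im (Complex.log (w - γ * I))
        rw [Complex.log_re, Complex.log_im] at e2
        have e3 := Complex.abs_arg_le_pi (w - γ * I)
        rw [← hr] at e2
        linarith
      have e4 : √r * |Real.log r| ≤ 2 + (1 + ρ) ^ 2 := by
        rcases le_total r 1 with h | h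
        · have h5 := Real.abs_log_mul_self_lt (√r) hs0 (Real.sqrt_le_one.2 h)
          rw [abs_mul, abs_of_pos hs0, Real.log_sqrt hr0.le, abs_div, abs_two] at h5
          nlinarith [sq_nonneg (1 + ρ)]
        · have h5 : Real.log r ≤ r := (Real.log_le_sub_one_of_pos hr0).trans (by linarith)
          have h6 : 0 ≤ Real.log r := Real.log_nonneg h
          rw [abs_of_nonneg h6]
          have h7 : r ≤ ρ := hw.le
          have h8 : √r ≤ r := by
            rw [Real.sqrt_le_left (by linarith)]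
            nlinarith
          nlinarith
      have e5 : √r * (|Real.log r| + Real.pi) ≤ 2 + (1 + ρ) ^ 2 + √ρ * Real.pi := by
        have : √r * Real.pi ≤ √ρ * Real.pi := mul_le_mul_of_nonneg_right hsr Real.pi_pos.le
        nlinarith
      exact (mul_le_mul_of_nonneg_left e1 hs0.le).trans e5
    have h5 : ‖L w‖ ≤ ‖H w‖ + m * ‖Complex.log (w - γ * I)‖ := by
      have e1 : L w = H w + m * Complex.log (w - γ * I) := by rw [hH]; ring
      rw [e1]
      refine (norm_add_le _ _).trans ?_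
      rw [norm_mul, Complex.norm_natCast]
    calc √r * ‖L w‖ ≤ √r * (‖H w‖ + m * ‖Complex.log (w - γ * I)‖) :=
          mul_le_mul_of_nonneg_left h5 hs0.le
      _ = √r * ‖H w‖ + m * (√r * ‖Complex.log (w - γ * I)‖) := by ring
      _ ≤ √ρ * (‖H w0‖ + C * (2 * ρ)) + m * (2 + (1 + ρ) ^ 2 + √ρ * Real.pi) := by
          refine add_le_add ?_ (mul_le_mul_of_nonneg_left h4 (Nat.cast_nonneg _))
          exact mul_le_mul hsr h3 (norm_nonneg _) (Real.sqrt_nonneg _)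
      _ ≤ _ := by linarith

theorem hasDerivAt_VV {L : ℂ → ℂ} (hL : Branch v G a L) (κ : ℝ) {w : ℂ} (hw : 0 < w.re) :
    HasDerivAt (VV L κ) ((-deriv L w * w - -(L w + κ)) / w ^ 2) w := by
  have hw0 : w ≠ 0 := by
    intro h0
    rw [h0] at hw
    simp at hw
  have hLd : HasDerivAt L (deriv L w) w := (hL.diff.differentiableAt
    ((isOpen_lt continuous_const Complex.continuous_re).mem_nhds hw)).hasDerivAt
  have h1 := ((hLd.add_const (κ : ℂ)).neg).div (hasDerivAt_id w) hw0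
  simp only [id, mul_one] at h1
  exact h1

/-- K5b. one zero: small windows, for `VV'` -/
theorem window_V (hF : Frame v G A a η B c k) {L : ℂ → ℂ} (hL : Branch v G a L) (γ : ℝ) (hγ : γ ≠ 0) (m : ℕ)
    (g : ℂ → ℂ) (hg : AnalyticAt ℂ g (γ * I)) (hg0 : g (γ * I) ≠ 0)
    (hG : ∀ᶠ w in 𝓝 (γ * I : ℂ), G w = (w - γ * I) ^ m * g w) :
    ∃ ε0 : ℝ, 0 < ε0 ∧ ∀ ε : ℝ, 0 < ε → ε ≤ ε0 →
      Tendsto (fun σ : ℝ => σ * ∫ τ in Icc (γ - ε) (γ + ε),
        ‖deriv (VV L (kap G)) ((σ : ℂ) + (τ : ℂ) * I)‖ ^ 2) (𝓝[>] 0)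
        (𝓝 (Real.pi * ((m : ℝ) ^ 2 / γ ^ 2))) := by
  have _ := hF
  set κ : ℝ := kap G with hκ
  obtain ⟨ρ, C, hρ, hC, hD⟩ := L_near hL γ m g hg hg0 hG
  have hγ0 : 0 < |γ| := abs_pos.2 hγ
  refine ⟨min (ρ / 2) (|γ| / 2), by positivity, fun ε hε hε0 => ?_⟩
  have hερ : ε ≤ ρ / 2 := hε0.trans (min_le_left _ _)
  set δ : ℝ := |γ| / 2 with hδ
  have hδ0 : 0 < δ := by positivity
  have hεγ : ε ≤ δ := hε0.trans (min_le_right _ _)
  have n2 : ∀ σ τ : ℝ, ‖(σ : ℂ) + (τ : ℂ) * I‖ ^ 2 = σ ^ 2 + τ ^ 2 := by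
    intro σ τ
    rw [Complex.sq_norm, Complex.normSq_apply]
    simp
    ring
  set Fσ : ℝ → ℝ → ℝ := fun σ u => indicator {u : ℝ | |σ * u| ≤ ε}
    (fun u => (σ * ‖deriv (VV L κ) ((σ : ℂ) + ((γ + σ * u : ℝ) : ℂ) * I)‖) ^ 2) u with hFσ
  have key : ∀ σ : ℝ, 0 < σ → σ * ∫ τ in Icc (γ - ε) (γ + ε),
      ‖deriv (VV L κ) ((σ : ℂ) + (τ : ℂ) * I)‖ ^ 2 = ∫ u, Fσ σ u := by
    intro σ hσ
    set gg : ℝ → ℝ := indicator (Icc (γ - ε) (γ + ε))
      (fun τ => ‖deriv (VV L κ) ((σ : ℂ) + (τ : ℂ) * I)‖ ^ 2) with hgg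
    have h1 : ∫ τ in Icc (γ - ε) (γ + ε),
        ‖deriv (VV L κ) ((σ : ℂ) + (τ : ℂ) * I)‖ ^ 2 = ∫ τ, gg τ := by
      rw [hgg, integral_indicator measurableSet_Icc]
    have h2 : ∫ τ, gg τ = ∫ y, gg (γ + y) := (integral_add_left_eq_self gg γ).symm
    have h3 : ∫ u, gg (γ + σ * u) = |σ⁻¹| • ∫ y, gg (γ + y) :=
      MeasureTheory.Measure.integral_comp_mul_left (fun y => gg (γ + y)) σ
    have h4 : ∫ y, gg (γ + y) = σ * ∫ u, gg (γ + σ * u) := by
      rw [h3, abs_of_pos (inv_pos.2 hσ), smul_eq_mul, ← mul_assoc, mul_inv_cancel₀ hσ.ne', one_mul]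
    rw [h1, h2, h4, ← mul_assoc, ← integral_const_mul]
    congr 1
    funext u
    by_cases hu : |σ * u| ≤ ε
    · have hmem : γ + σ * u ∈ Icc (γ - ε) (γ + ε) := by
        have := abs_le.1 hu
        constructor <;> linarith [this.1, this.2]
      rw [hgg, indicator_of_mem hmem, hFσ]
      simp only
      rw [indicator_of_mem (show u ∈ {u : ℝ | |σ * u| ≤ ε} from hu)]
      ring
    · have hmem : γ + σ * u ∉ Icc (γ - ε) (γ + ε) := by
        intro h
        apply hu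
        rw [abs_le]
        constructor <;> linarith [h.1, h.2]
      rw [hgg, indicator_of_notMem hmem, hFσ]
      simp only
      rw [indicator_of_notMem (show u ∉ {u : ℝ | |σ * u| ≤ ε} from hu), mul_zero]
  have hq1 : ∀ u : ℝ, 1 ≤ √(1 + u ^ 2) := fun u => by
    rw [Real.one_le_sqrt]; nlinarith [sq_nonneg u]
  -- lower bound for `‖w‖`
  have hwlow : ∀ σ u : ℝ, |σ * u| ≤ ε → δ ≤ ‖(σ : ℂ) + ((γ + σ * u : ℝ) : ℂ) * I‖ := by
    intro σ u hu
    have h1 : |γ| - ε ≤ |γ + σ * u| := by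
      have := abs_sub_abs_le_abs_sub γ (-(σ * u))
      rw [abs_neg, sub_neg_eq_add] at this
      linarith
    have h2 := Complex.abs_im_le_norm ((σ : ℂ) + ((γ + σ * u : ℝ) : ℂ) * I)
    have h3 : ((σ : ℂ) + ((γ + σ * u : ℝ) : ℂ) * I).im = γ + σ * u := by simp
    rw [h3] at h2
    have : |γ| - ε ≥ δ := by rw [hδ] at hεγ ⊢; linarith
    linarith
  -- the main estimate
  have hest : ∀ σ u : ℝ, 0 < σ → σ < ρ / 2 → |σ * u| ≤ ε →
      |σ * ‖deriv (VV L κ) ((σ : ℂ) + ((γ + σ * u : ℝ) : ℂ) * I)‖ -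
        m / (√(1 + u ^ 2) * ‖(σ : ℂ) + ((γ + σ * u : ℝ) : ℂ) * I‖)| ≤
        σ * (C / δ + |κ| / δ ^ 2) + √(σ / √(1 + u ^ 2)) * (C / δ ^ 2) := by
    intro σ u hσ hσρ hu
    set w : ℂ := (σ : ℂ) + ((γ + σ * u : ℝ) : ℂ) * I with hw
    set q : ℝ := √(1 + u ^ 2) with hq
    have hqp : 0 < q := Real.sqrt_pos.2 (by positivity)
    have hwre : w.re = σ := by rw [hw]; simp
    have hwn : δ ≤ ‖w‖ := hwlow σ u hu
    have hwn0 : 0 < ‖w‖ := lt_of_lt_of_le hδ0 hwn
    have hw0 : w ≠ 0 := norm_pos_iff.1 hwn0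
    have hq' : ‖(1 : ℂ) + (u : ℂ) * I‖ = q := by
      have := n2 1 u
      rw [Complex.ofReal_one, one_pow] at this
      rw [hq, ← this, Real.sqrt_sq (norm_nonneg _)]
    have hwd : w - γ * I = (σ : ℂ) * (1 + (u : ℂ) * I) := by
      rw [hw]; push_cast; ring
    have hnorm : ‖w - γ * I‖ = σ * q := by
      rw [hwd, norm_mul, hq', Complex.norm_real, Real.norm_eq_abs, abs_of_pos hσ]
    have hlt : ‖w - γ * I‖ < ρ := by
      have h5 : w - γ * I = (σ : ℂ) + ((σ * u : ℝ) : ℂ) * I := by rw [hwd]; push_cast; ring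
      rw [h5]
      have h6 := norm_add_le (σ : ℂ) (((σ * u : ℝ) : ℂ) * I)
      rw [norm_mul, Complex.norm_I, mul_one, Complex.norm_real, Complex.norm_real,
        Real.norm_eq_abs, Real.norm_eq_abs, abs_of_pos hσ] at h6
      linarith
    obtain ⟨h7, h7'⟩ := hD w hlt (by rw [hwre]; exact hσ)
    have hne : w - γ * I ≠ 0 := by
      rw [← norm_pos_iff, hnorm]; positivity
    have hder : deriv (VV L κ) w = -(m / ((w - γ * I) * w)) +
        (-(deriv L w - m / (w - γ * I)) / w + (L w + κ) / w ^ 2) := by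
      rw [(hasDerivAt_VV hL κ (by rw [hwre]; exact hσ)).deriv]
      field_simp
      ring
    have h8 : ‖-((m : ℂ) / ((w - γ * I) * w))‖ = m / (σ * q * ‖w‖) := by
      rw [norm_neg, norm_div, norm_mul, hnorm, Complex.norm_natCast]
    have h9 : |‖deriv (VV L κ) w‖ - m / (σ * q * ‖w‖)| ≤
        ‖-(deriv L w - m / (w - γ * I)) / w + (L w + κ) / w ^ 2‖ := by
      rw [← h8]
      refine (abs_norm_sub_norm_le _ _).trans (le_of_eq ?_)
      rw [hder, add_sub_cancel_left]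
    have hE : ‖-(deriv L w - m / (w - γ * I)) / w + (L w + κ) / w ^ 2‖ ≤
        (C / δ + |κ| / δ ^ 2) + ‖L w‖ / δ ^ 2 := by
      refine (norm_add_le _ _).trans ?_
      have e1 : ‖-(deriv L w - m / (w - γ * I)) / w‖ ≤ C / δ := by
        rw [norm_div, norm_neg]
        exact div_le_div₀ hC h7 hδ0 hwn
      have e2 : ‖(L w + κ) / w ^ 2‖ ≤ (‖L w‖ + |κ|) / δ ^ 2 := by
        rw [norm_div, norm_pow]
        refine div_le_div₀ (by positivity) ?_ (by positivity) (pow_le_pow_left₀ hδ0.le hwn 2)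
        refine (norm_add_le _ _).trans ?_
        rw [Complex.norm_real, Real.norm_eq_abs]
      have e3 : (‖L w‖ + |κ|) / δ ^ 2 = ‖L w‖ / δ ^ 2 + |κ| / δ ^ 2 := add_div _ _ _
      rw [e3] at e2
      linarith
    have h10 : σ * ‖deriv (VV L κ) w‖ - m / (q * ‖w‖) =
        σ * (‖deriv (VV L κ) w‖ - m / (σ * q * ‖w‖)) := by
      field_simp
    rw [h10, abs_mul, abs_of_pos hσ]
    have h11 := mul_le_mul_of_nonneg_left (h9.trans hE) hσ.le
    have h12 : σ * ‖L w‖ ≤ √(σ / q) * C := by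
      rw [hnorm] at h7'
      have e1 : σ = √(σ / q) * √(σ * q) := by
        rw [← Real.sqrt_mul (by positivity)]
        have : σ / q * (σ * q) = σ ^ 2 := by field_simp
        rw [this, Real.sqrt_sq hσ.le]
      calc σ * ‖L w‖ = √(σ / q) * (√(σ * q) * ‖L w‖) := by
            conv_lhs => rw [e1]
            ring
        _ ≤ √(σ / q) * C := mul_le_mul_of_nonneg_left h7' (Real.sqrt_nonneg _)
    calc σ * |‖deriv (VV L κ) w‖ - m / (σ * q * ‖w‖)| ≤
          σ * ((C / δ + |κ| / δ ^ 2) + ‖L w‖ / δ ^ 2) := h11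
      _ = σ * (C / δ + |κ| / δ ^ 2) + (σ * ‖L w‖) / δ ^ 2 := by ring
      _ ≤ σ * (C / δ + |κ| / δ ^ 2) + (√(σ / q) * C) / δ ^ 2 := by
          have := div_le_div_of_nonneg_right h12 (sq_nonneg δ)
          linarith
      _ = _ := by ring
  set M : ℝ := m / δ + ((C / δ + |κ| / δ ^ 2) + C / δ ^ 2) * (1 + ε) with hMdef
  have hM0 : 0 ≤ M := by positivity
  have hM : ∀ σ u : ℝ, 0 < σ → σ < ρ / 2 → σ ≤ 1 → |σ * u| ≤ ε →
      (σ * ‖deriv (VV L κ) ((σ : ℂ) + ((γ + σ * u : ℝ) : ℂ) * I)‖) ^ 2 ≤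
        M ^ 2 * (1 + u ^ 2)⁻¹ := by
    intro σ u hσ hσρ hσ1 hu
    have h1 := (abs_le.1 (hest σ u hσ hσρ hu)).2
    have hwn := hwlow σ u hu
    set W : ℝ := ‖(σ : ℂ) + ((γ + σ * u : ℝ) : ℂ) * I‖ with hW
    have hqp : 0 < √(1 + u ^ 2) := Real.sqrt_pos.2 (by positivity)
    have hσq : σ * √(1 + u ^ 2) ≤ 1 + ε := by
      have h2 : σ * √(1 + u ^ 2) = √(σ ^ 2 + (σ * u) ^ 2) := by
        rw [← Real.sqrt_sq hσ.le, ← Real.sqrt_mul (sq_nonneg _), Real.sqrt_sq hσ.le]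
        congr 1; ring
      rw [h2]
      apply Real.sqrt_le_iff.2
      constructor
      · linarith
      · have h3 : (σ * u) ^ 2 ≤ ε ^ 2 := by
          rw [← sq_abs (σ * u)]
          exact pow_le_pow_left₀ (abs_nonneg _) hu 2
        nlinarith
    have h4 : σ ≤ (1 + ε) / √(1 + u ^ 2) := by
      rw [le_div_iff₀ hqp]; exact hσq
    have h5 : √(σ / √(1 + u ^ 2)) ≤ (1 + ε) / √(1 + u ^ 2) := by
      apply Real.sqrt_le_iff.2
      refine ⟨by positivity, ?_⟩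
      rw [div_pow, Real.sq_sqrt (by positivity), div_le_div_iff₀ hqp (by positivity)]
      have e1 : σ * (1 + u ^ 2) = (σ * √(1 + u ^ 2)) * √(1 + u ^ 2) := by
        rw [mul_assoc, Real.mul_self_sqrt (by positivity)]
      rw [e1]
      refine mul_le_mul_of_nonneg_right (hσq.trans ?_) hqp.le
      nlinarith
    have h6 : (m : ℝ) / (√(1 + u ^ 2) * W) ≤ (m / δ) / √(1 + u ^ 2) := by
      rw [div_div]
      apply div_le_div_of_nonneg_left (Nat.cast_nonneg _) (by positivity)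
      rw [mul_comm δ]
      exact mul_le_mul_of_nonneg_left hwn hqp.le
    have h7 : σ * ‖deriv (VV L κ) ((σ : ℂ) + ((γ + σ * u : ℝ) : ℂ) * I)‖ ≤ M / √(1 + u ^ 2) := by
      have e1 : M / √(1 + u ^ 2) = (m / δ) / √(1 + u ^ 2) +
          ((1 + ε) / √(1 + u ^ 2)) * (C / δ + |κ| / δ ^ 2) +
          ((1 + ε) / √(1 + u ^ 2)) * (C / δ ^ 2) := by
        rw [hMdef]; ring
      rw [e1]
      have e2 := mul_le_mul_of_nonneg_right h4 (by positivity : 0 ≤ C / δ + |κ| / δ ^ 2)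
      have e3 := mul_le_mul_of_nonneg_right h5 (by positivity : 0 ≤ C / δ ^ 2)
      linarith
    have h8 := pow_le_pow_left₀ (by positivity) h7 2
    rw [div_pow, Real.sq_sqrt (by positivity)] at h8
    rwa [div_eq_mul_inv] at h8
  have hlim : Tendsto (fun σ : ℝ => ∫ u, Fσ σ u) (𝓝[>] 0)
      (𝓝 (∫ u : ℝ, (m : ℝ) ^ 2 * (1 + u ^ 2)⁻¹ * (γ ^ 2)⁻¹)) := by
    have hsmall : ∀ᶠ σ : ℝ in 𝓝[>] 0, 0 < σ ∧ σ < ρ / 2 ∧ σ ≤ 1 := by
      have e1 : ∀ᶠ σ : ℝ in 𝓝[>] 0, 0 < σ := self_mem_nhdsWithin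
      have e2 : ∀ᶠ σ : ℝ in 𝓝[>] 0, σ < ρ / 2 :=
        mem_nhdsWithin_of_mem_nhds (Iio_mem_nhds (by positivity))
      have e3 : ∀ᶠ σ : ℝ in 𝓝[>] 0, σ < 1 :=
        mem_nhdsWithin_of_mem_nhds (Iio_mem_nhds one_pos)
      filter_upwards [e1, e2, e3] with σ h1 h2 h3
      exact ⟨h1, h2, h3.le⟩
    refine tendsto_integral_filter_of_dominated_convergence
      (fun u : ℝ => M ^ 2 * (1 + u ^ 2)⁻¹) ?_ ?_ ?_ ?_
    · filter_upwards with σ
      refine Measurable.aestronglyMeasurable ?_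
      refine Measurable.indicator ?_ (measurableSet_le (by fun_prop) (by fun_prop))
      have hmd : Measurable fun u : ℝ => deriv (VV L κ) ((σ : ℂ) + ((γ + σ * u : ℝ) : ℂ) * I) :=
        (measurable_deriv (VV L κ)).comp (by fun_prop)
      fun_prop
    · filter_upwards [hsmall] with σ hσ
      filter_upwards with u
      by_cases hu : |σ * u| ≤ ε
      · simp only [hFσ]
        rw [indicator_of_mem (show u ∈ {u : ℝ | |σ * u| ≤ ε} from hu), Real.norm_eq_abs,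
          abs_of_nonneg (by positivity)]
        exact hM σ u hσ.1 hσ.2.1 hσ.2.2 hu
      · simp only [hFσ]
        rw [indicator_of_notMem (show u ∉ {u : ℝ | |σ * u| ≤ ε} from hu), norm_zero]
        positivity
    · exact integrable_inv_one_add_sq.const_mul _
    · filter_upwards with u
      have hid : Tendsto (fun σ : ℝ => σ) (𝓝[>] 0) (𝓝 0) :=
        tendsto_id.mono_left nhdsWithin_le_nhds
      have hc : Tendsto (fun σ : ℝ => σ * u) (𝓝[>] 0) (𝓝 0) := by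
        have := hid.mul_const u
        rwa [zero_mul] at this
      have hev : ∀ᶠ σ : ℝ in 𝓝[>] 0, |σ * u| ≤ ε := by
        have := (hc.abs).eventually (eventually_lt_nhds (by rwa [abs_zero] : |(0 : ℝ)| < ε))
        filter_upwards [this] with σ h using h.le
      have hnw : Tendsto (fun σ : ℝ => ‖(σ : ℂ) + ((γ + σ * u : ℝ) : ℂ) * I‖) (𝓝[>] 0) (𝓝 |γ|) := by
        have h1 : Tendsto (fun σ : ℝ => ‖(σ : ℂ) + ((γ + σ * u : ℝ) : ℂ) * I‖) (𝓝 0)
            (𝓝 ‖((0 : ℝ) : ℂ) + ((γ + 0 * u : ℝ) : ℂ) * I‖) := by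
          apply Continuous.tendsto
          fun_prop
        have h2 : ‖((0 : ℝ) : ℂ) + ((γ + 0 * u : ℝ) : ℂ) * I‖ = |γ| := by
          rw [zero_mul, add_zero, Complex.ofReal_zero, zero_add, norm_mul, Complex.norm_I, mul_one,
            Complex.norm_real, Real.norm_eq_abs]
        rw [h2] at h1
        exact h1.mono_left nhdsWithin_le_nhds
      have hqp : 0 < √(1 + u ^ 2) := Real.sqrt_pos.2 (by positivity)
      have hmainterm : Tendsto (fun σ : ℝ =>
          (m : ℝ) / (√(1 + u ^ 2) * ‖(σ : ℂ) + ((γ + σ * u : ℝ) : ℂ) * I‖)) (𝓝[>] 0)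
          (𝓝 (m / (√(1 + u ^ 2) * |γ|))) :=
        tendsto_const_nhds.div (hnw.const_mul _) (by positivity)
      have hz : Tendsto (fun σ : ℝ => σ * (C / δ + |κ| / δ ^ 2) +
          √(σ / √(1 + u ^ 2)) * (C / δ ^ 2)) (𝓝[>] 0) (𝓝 0) := by
        have e1 := hid.mul_const (C / δ + |κ| / δ ^ 2)
        have e2 := ((hid.div_const (√(1 + u ^ 2))).sqrt).mul_const (C / δ ^ 2)
        have e3 := e1.add e2
        simpa using e3
      have hdiff : Tendsto (fun σ : ℝ =>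
          σ * ‖deriv (VV L κ) ((σ : ℂ) + ((γ + σ * u : ℝ) : ℂ) * I)‖ -
          (m : ℝ) / (√(1 + u ^ 2) * ‖(σ : ℂ) + ((γ + σ * u : ℝ) : ℂ) * I‖)) (𝓝[>] 0) (𝓝 0) := by
        rw [tendsto_zero_iff_norm_tendsto_zero]
        refine tendsto_of_tendsto_of_tendsto_of_le_of_le' tendsto_const_nhds hz ?_ ?_
        · filter_upwards with σ using norm_nonneg _
        · filter_upwards [hsmall, hev] with σ hσ hu
          rw [Real.norm_eq_abs]
          exact hest σ u hσ.1 hσ.2.1 hu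
      have hnum := hdiff.add hmainterm
      simp only [sub_add_cancel, zero_add] at hnum
      have hsq := hnum.pow 2
      have hval : (m / (√(1 + u ^ 2) * |γ|)) ^ 2 = (m : ℝ) ^ 2 * (1 + u ^ 2)⁻¹ * (γ ^ 2)⁻¹ := by
        rw [div_pow, mul_pow, Real.sq_sqrt (by positivity), sq_abs, div_eq_mul_inv, mul_inv]
        ring
      rw [hval] at hsq
      refine hsq.congr' ?_
      filter_upwards [hev] with σ h
      simp only [hFσ]
      rw [indicator_of_mem (show u ∈ {u : ℝ | |σ * u| ≤ ε} from h)]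
  have hval : ∫ u : ℝ, (m : ℝ) ^ 2 * (1 + u ^ 2)⁻¹ * (γ ^ 2)⁻¹ = Real.pi * ((m : ℝ) ^ 2 / γ ^ 2) := by
    rw [integral_mul_const, integral_const_mul, integral_univ_inv_one_add_sq]
    ring
  rw [hval] at hlim
  refine hlim.congr' ?_
  filter_upwards [self_mem_nhdsWithin] with σ hσ
  exact (key σ hσ).symm

end Pool.Agent.Helper16.CR
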