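import Pool.Agent.Helper29.MS.H2

/-!
CR, leaf K2: the mean square of the logarithmic derivative on a small window around a zero.
-/

set_option autoImplicit false

namespace Pool.Agent.Helper16.CR

open Complex Filter Topology MeasureTheory Set Metric
open Pool.Agent.Helper13.Bsd Pool.Agent.Helper7.GW Pool.Agent.Helper58.BSD Pool.Agent.Helper29.MS

variable {v : ℝ → ℝ} {G : ℂ → ℂ} {A a η B c : ℝ} {k : ℕ}

/-- near a zero of order `m` on the line: `L' = m / (w - i γ) + O(1)` -/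
theorem deriv_near {L : ℂ → ℂ} (hL : Branch v G a L) (γ : ℝ) (m : ℕ)
    (g : ℂ → ℂ) (hg : AnalyticAt ℂ g (γ * I)) (hg0 : g (γ * I) ≠ 0)
    (hG : ∀ᶠ w in 𝓝 (γ * I : ℂ), G w = (w - γ * I) ^ m * g w) :
    ∃ ρ C : ℝ, 0 < ρ ∧ 0 ≤ C ∧ ∀ w : ℂ, ‖w - γ * I‖ < ρ → 0 < w.re →
      ‖deriv L w - m / (w - γ * I)‖ ≤ C := by
  have h1 := hg.eventually_analyticAt
  have h2 := hg.continuousAt.eventually_ne hg0
  have h3 := eventually_eventually_nhds.2 hG
  have hc : ContinuousAt (fun z => ‖deriv g z / g z‖) (γ * I : ℂ) :=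
    (hg.deriv.continuousAt.div hg.continuousAt hg0).norm
  have h4 : ∀ᶠ z in 𝓝 (γ * I : ℂ), ‖deriv g z / g z‖ < ‖deriv g (γ * I) / g (γ * I)‖ + 1 :=
    hc.eventually (eventually_lt_nhds (lt_add_one _))
  obtain ⟨ρ, hρ, hall⟩ := Metric.eventually_nhds_iff.1 (h1.and (h2.and (h3.and h4)))
  refine ⟨ρ, ‖deriv g (γ * I) / g (γ * I)‖ + 1, hρ, by positivity, fun w hw hre => ?_⟩
  obtain ⟨a1, a2, a3, a4⟩ := hall (show dist w (γ * I) < ρ by rwa [dist_eq_norm])
  have hopen : {w : ℂ | 0 < w.re} ∈ 𝓝 w :=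
    (isOpen_lt continuous_const Complex.continuous_re).mem_nhds hre
  have hLd : DifferentiableAt ℂ L w := hL.diff.differentiableAt hopen
  have hne : w - γ * I ≠ 0 := by
    intro h0
    have : w.re = 0 := by
      have h5 := congrArg Complex.re h0
      simpa using h5
    linarith
  have hev : (fun z => cexp (L z)) =ᶠ[𝓝 w] fun z => (z - γ * I) ^ m * g z := by
    filter_upwards [hopen, a3] with z hz hz'
    rw [hL.exp z hz, hz']
  have e1 : HasDerivAt (fun z => cexp (L z)) (cexp (L w) * deriv L w) w := hLd.hasDerivAt.cexp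
  have e2 : HasDerivAt (fun z => (z - γ * I) ^ m * g z)
      (m * (w - γ * I) ^ (m - 1) * 1 * g w + (w - γ * I) ^ m * deriv g w) w :=
    (((hasDerivAt_id w).sub_const _).pow m).mul a1.differentiableAt.hasDerivAt
  have e3 := (e1.congr_of_eventuallyEq hev.symm).unique e2
  have e4 : cexp (L w) = (w - γ * I) ^ m * g w := hev.self_of_nhds
  rw [e4] at e3
  have hpow : (w - γ * I) ^ m ≠ 0 := pow_ne_zero _ hne
  have e5 : deriv L w = m / (w - γ * I) + deriv g w / g w := by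
    have h6 : (m : ℂ) * (w - γ * I) ^ (m - 1) * (w - γ * I) = m * (w - γ * I) ^ m := by
      rcases Nat.eq_zero_or_pos m with hm | hm
      · rw [hm]; simp
      · rw [mul_assoc, ← pow_succ, Nat.sub_add_cancel hm]
    have h7 : (w - γ * I) ^ m * g w * deriv L w * (w - γ * I) =
        (w - γ * I) ^ m * g w * (m / (w - γ * I) + deriv g w / g w) * (w - γ * I) := by
      rw [e3]
      have : (m * (w - γ * I) ^ (m - 1) * 1 * g w + (w - γ * I) ^ m * deriv g w) * (w - γ * I) =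
          (m * (w - γ * I) ^ (m - 1) * (w - γ * I)) * g w +
            (w - γ * I) ^ m * deriv g w * (w - γ * I) := by ring
      rw [this, h6]
      field_simp
    have h8 := mul_right_cancel₀ hne h7
    exact mul_left_cancel₀ (mul_ne_zero hpow a2) h8
  rw [e5, add_sub_cancel_left]
  exact a4.le

/-- K2. one zero: small windows -/
theorem window (hF : Frame v G A a η B c k) {L : ℂ → ℂ} (hL : Branch v G a L) (γ : ℝ) (hγ : γ ≠ 0) (m : ℕ)
    (g : ℂ → ℂ) (hg : AnalyticAt ℂ g (γ * I)) (hg0 : g (γ * I) ≠ 0)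
    (hG : ∀ᶠ w in 𝓝 (γ * I : ℂ), G w = (w - γ * I) ^ m * g w) :
    ∃ ε0 : ℝ, 0 < ε0 ∧ ∀ ε : ℝ, 0 < ε → ε ≤ ε0 →
      Tendsto (fun σ : ℝ => σ * ∫ τ in Icc (γ - ε) (γ + ε),
        ‖deriv L ((σ : ℂ) + (τ : ℂ) * I)‖ ^ 2 * (‖(σ : ℂ) + (τ : ℂ) * I‖ ^ 2)⁻¹) (𝓝[>] 0)
        (𝓝 ((m : ℝ) ^ 2 * (Real.pi / γ ^ 2))) := by
  have _ := hF
  obtain ⟨ρ, C, hρ, hC, hD⟩ := deriv_near hL γ m g hg hg0 hG
  have hγ0 : 0 < |γ| := abs_pos.2 hγ
  refine ⟨min (ρ / 2) (|γ| / 2), by positivity, fun ε hε hε0 => ?_⟩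
  have hερ : ε ≤ ρ / 2 := hε0.trans (min_le_left _ _)
  have hεγ : ε < |γ| := by
    have := hε0.trans (min_le_right _ _)
    linarith
  have n2 : ∀ σ τ : ℝ, ‖(σ : ℂ) + (τ : ℂ) * I‖ ^ 2 = σ ^ 2 + τ ^ 2 := by
    intro σ τ
    rw [Complex.sq_norm, Complex.normSq_apply]
    simp
    ring
  simp only [n2]
  set Fσ : ℝ → ℝ → ℝ := fun σ u => indicator {u : ℝ | |σ * u| ≤ ε}
    (fun u => (σ * ‖deriv L ((σ : ℂ) + ((γ + σ * u : ℝ) : ℂ) * I)‖) ^ 2 *
      (σ ^ 2 + (γ + σ * u) ^ 2)⁻¹) u with hFσ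
  have key : ∀ σ : ℝ, 0 < σ → σ * ∫ τ in Icc (γ - ε) (γ + ε),
      ‖deriv L ((σ : ℂ) + (τ : ℂ) * I)‖ ^ 2 * (σ ^ 2 + τ ^ 2)⁻¹ = ∫ u, Fσ σ u := by
    intro σ hσ
    set gg : ℝ → ℝ := indicator (Icc (γ - ε) (γ + ε))
      (fun τ => ‖deriv L ((σ : ℂ) + (τ : ℂ) * I)‖ ^ 2 * (σ ^ 2 + τ ^ 2)⁻¹) with hgg
    have h1 : ∫ τ in Icc (γ - ε) (γ + ε),
        ‖deriv L ((σ : ℂ) + (τ : ℂ) * I)‖ ^ 2 * (σ ^ 2 + τ ^ 2)⁻¹ = ∫ τ, gg τ := by
      rw [hgg, integral_indicator measurableSet_Icc]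
    have h2 : ∫ τ, gg τ = ∫ y, gg (γ + y) := (integral_add_left_eq_self gg γ).symm
    have h3 : ∫ u, gg (γ + σ * u) = |σ⁻¹| • ∫ y, gg (γ + y) :=
      MeasureTheory.Measure.integral_comp_mul_left (fun y => gg (γ + y)) σ
    have h4 : ∫ y, gg (γ + y) = σ * ∫ u, gg (γ + σ * u) := by
      rw [h3, abs_of_pos (inv_pos.2 hσ), smul_eq_mul, ← mul_assoc, mul_inv_cancel₀ hσ.ne', one_mul]
    rw [h1, h2, h4, ← mul_assoc, ← integral_const_mul]
    congr 1
    funext u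
    by_cases hu : |σ * u| ≤ ε
    · have hmem : γ + σ * u ∈ Icc (γ - ε) (γ + ε) := by
        have := abs_le.1 hu
        constructor <;> linarith [this.1, this.2]
      rw [hgg, indicator_of_mem hmem, hFσ]
      simp only
      rw [indicator_of_mem (show u ∈ {u : ℝ | |σ * u| ≤ ε} from hu)]
      ring
    · have hmem : γ + σ * u ∉ Icc (γ - ε) (γ + ε) := by
        intro h
        apply hu
        rw [abs_le]
        constructor <;> linarith [h.1, h.2]
      rw [hgg, indicator_of_notMem hmem, hFσ]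
      simp only
      rw [indicator_of_notMem (show u ∉ {u : ℝ | |σ * u| ≤ ε} from hu), mul_zero]
  -- the main estimate
  have hest : ∀ σ u : ℝ, 0 < σ → σ < ρ / 2 → |σ * u| ≤ ε →
      |σ * ‖deriv L ((σ : ℂ) + ((γ + σ * u : ℝ) : ℂ) * I)‖ - m / √(1 + u ^ 2)| ≤ σ * C := by
    intro σ u hσ hσρ hu
    set w : ℂ := (σ : ℂ) + ((γ + σ * u : ℝ) : ℂ) * I with hw
    have hwre : w.re = σ := by rw [hw]; simp
    have hq : ‖(1 : ℂ) + (u : ℂ) * I‖ = √(1 + u ^ 2) := by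
      have := n2 1 u
      rw [Complex.ofReal_one, one_pow] at this
      rw [← this, Real.sqrt_sq (norm_nonneg _)]
    have hwd : w - γ * I = (σ : ℂ) * (1 + (u : ℂ) * I) := by
      rw [hw]; push_cast; ring
    have hnorm : ‖w - γ * I‖ = σ * √(1 + u ^ 2) := by
      rw [hwd, norm_mul, hq, Complex.norm_real, Real.norm_eq_abs, abs_of_pos hσ]
    have hlt : ‖w - γ * I‖ < ρ := by
      have h5 : w - γ * I = (σ : ℂ) + ((σ * u : ℝ) : ℂ) * I := by rw [hwd]; push_cast; ring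
      rw [h5]
      have h6 := norm_add_le (σ : ℂ) (((σ * u : ℝ) : ℂ) * I)
      rw [norm_mul, Complex.norm_I, mul_one, Complex.norm_real, Complex.norm_real,
        Real.norm_eq_abs, Real.norm_eq_abs, abs_of_pos hσ] at h6
      linarith
    have h7 := hD w hlt (by rw [hwre]; exact hσ)
    have h8 : ‖(m : ℂ) / (w - γ * I)‖ = m / (σ * √(1 + u ^ 2)) := by
      rw [norm_div, hnorm, Complex.norm_natCast]
    have h9 := (abs_norm_sub_norm_le (deriv L w) ((m : ℂ) / (w - γ * I))).trans h7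
    rw [h8] at h9
    have hqp : 0 < √(1 + u ^ 2) := Real.sqrt_pos.2 (by positivity)
    have h10 : σ * ‖deriv L w‖ - m / √(1 + u ^ 2) = σ * (‖deriv L w‖ - m / (σ * √(1 + u ^ 2))) := by
      field_simp
    rw [h10, abs_mul, abs_of_pos hσ]
    exact mul_le_mul_of_nonneg_left h9 hσ.le
  have hM : ∀ σ u : ℝ, 0 < σ → σ < ρ / 2 → σ ≤ 1 → |σ * u| ≤ ε →
      (σ * ‖deriv L ((σ : ℂ) + ((γ + σ * u : ℝ) : ℂ) * I)‖) ^ 2 ≤
        (m + C * (1 + ε)) ^ 2 * (1 + u ^ 2)⁻¹ := by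
    intro σ u hσ hσρ hσ1 hu
    have h1 := (abs_le.1 (hest σ u hσ hσρ hu)).2
    have hqp : 0 < √(1 + u ^ 2) := Real.sqrt_pos.2 (by positivity)
    have hσq : σ * √(1 + u ^ 2) ≤ 1 + ε := by
      have h2 : σ * √(1 + u ^ 2) = √(σ ^ 2 + (σ * u) ^ 2) := by
        rw [← Real.sqrt_sq hσ.le, ← Real.sqrt_mul (sq_nonneg _), Real.sqrt_sq hσ.le]
        congr 1; ring
      rw [h2]
      apply Real.sqrt_le_iff.2
      constructor
      · linarith
      · have h3 : (σ * u) ^ 2 ≤ ε ^ 2 := by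
          rw [← sq_abs (σ * u)]
          exact pow_le_pow_left₀ (abs_nonneg _) hu 2
        nlinarith
    have h4 : σ * C ≤ C * (1 + ε) / √(1 + u ^ 2) := by
      rw [le_div_iff₀ hqp]
      nlinarith
    have h5 : σ * ‖deriv L ((σ : ℂ) + ((γ + σ * u : ℝ) : ℂ) * I)‖ ≤
        (m + C * (1 + ε)) / √(1 + u ^ 2) := by
      rw [add_div]; linarith
    have h6 := pow_le_pow_left₀ (by positivity) h5 2
    rw [div_pow, Real.sq_sqrt (by positivity)] at h6
    rwa [div_eq_mul_inv] at h6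
  have hlim : Tendsto (fun σ : ℝ => ∫ u, Fσ σ u) (𝓝[>] 0)
      (𝓝 (∫ u : ℝ, (m : ℝ) ^ 2 * (1 + u ^ 2)⁻¹ * (γ ^ 2)⁻¹)) := by
    have hsmall : ∀ᶠ σ : ℝ in 𝓝[>] 0, 0 < σ ∧ σ < ρ / 2 ∧ σ ≤ 1 := by
      have e1 : ∀ᶠ σ : ℝ in 𝓝[>] 0, 0 < σ := self_mem_nhdsWithin
      have e2 : ∀ᶠ σ : ℝ in 𝓝[>] 0, σ < ρ / 2 :=
        mem_nhdsWithin_of_mem_nhds (Iio_mem_nhds (by positivity))
      have e3 : ∀ᶠ σ : ℝ in 𝓝[>] 0, σ < 1 :=
        mem_nhdsWithin_of_mem_nhds (Iio_mem_nhds one_pos)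
      filter_upwards [e1, e2, e3] with σ h1 h2 h3
      exact ⟨h1, h2, h3.le⟩
    refine tendsto_integral_filter_of_dominated_convergence
      (fun u : ℝ => (m + C * (1 + ε)) ^ 2 * (1 + u ^ 2)⁻¹ * ((|γ| - ε) ^ 2)⁻¹) ?_ ?_ ?_ ?_
    · filter_upwards with σ
      refine Measurable.aestronglyMeasurable ?_
      refine Measurable.indicator ?_ (measurableSet_le (by fun_prop) (by fun_prop))
      have hmd : Measurable fun u : ℝ => deriv L ((σ : ℂ) + ((γ + σ * u : ℝ) : ℂ) * I) :=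
        (measurable_deriv L).comp (by fun_prop)
      fun_prop
    · filter_upwards [hsmall] with σ hσ
      filter_upwards with u
      have hpos : 0 < |γ| - ε := by linarith
      by_cases hu : |σ * u| ≤ ε
      · simp only [hFσ]
        rw [indicator_of_mem (show u ∈ {u : ℝ | |σ * u| ≤ ε} from hu), Real.norm_eq_abs,
          abs_of_nonneg (by positivity)]
        refine mul_le_mul (hM σ u hσ.1 hσ.2.1 hσ.2.2 hu) ?_ (by positivity) (by positivity)
        apply inv_anti₀ (by positivity)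
        have h1 : |γ| - ε ≤ |γ + σ * u| := by
          have := abs_sub_abs_le_abs_sub γ (-(σ * u))
          rw [abs_neg, sub_neg_eq_add] at this
          linarith
        have h2 : (|γ| - ε) ^ 2 ≤ (γ + σ * u) ^ 2 := by
          rw [← sq_abs (γ + σ * u)]
          exact pow_le_pow_left₀ hpos.le h1 2
        nlinarith [sq_nonneg σ]
      · simp only [hFσ]
        rw [indicator_of_notMem (show u ∉ {u : ℝ | |σ * u| ≤ ε} from hu), norm_zero]
        positivity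
    · exact (integrable_inv_one_add_sq.const_mul _).mul_const _
    · filter_upwards with u
      have hc : Tendsto (fun σ : ℝ => σ * u) (𝓝[>] 0) (𝓝 0) := by
        have : Tendsto (fun σ : ℝ => σ * u) (𝓝 0) (𝓝 (0 * u)) :=
          (continuous_id.mul continuous_const).tendsto 0
        rw [zero_mul] at this
        exact this.mono_left nhdsWithin_le_nhds
      have hev : ∀ᶠ σ : ℝ in 𝓝[>] 0, |σ * u| ≤ ε := by
        have := (hc.abs).eventually (eventually_lt_nhds (by rwa [abs_zero] : |(0 : ℝ)| < ε))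
        filter_upwards [this] with σ h using h.le
      have hnum : Tendsto (fun σ : ℝ => σ * ‖deriv L ((σ : ℂ) + ((γ + σ * u : ℝ) : ℂ) * I)‖)
          (𝓝[>] 0) (𝓝 (m / √(1 + u ^ 2))) := by
        rw [tendsto_iff_norm_sub_tendsto_zero]
        have hz : Tendsto (fun σ : ℝ => σ * C) (𝓝[>] 0) (𝓝 0) := by
          have : Tendsto (fun σ : ℝ => σ * C) (𝓝 0) (𝓝 (0 * C)) :=
            (continuous_id.mul continuous_const).tendsto 0
          rw [zero_mul] at this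
          exact this.mono_left nhdsWithin_le_nhds
        refine tendsto_of_tendsto_of_tendsto_of_le_of_le' tendsto_const_nhds hz ?_ ?_
        · filter_upwards with σ using norm_nonneg _
        · filter_upwards [hsmall, hev] with σ hσ hu
          rw [Real.norm_eq_abs]
          exact hest σ u hσ.1 hσ.2.1 hu
      have hden : Tendsto (fun σ : ℝ => (σ ^ 2 + (γ + σ * u) ^ 2)⁻¹) (𝓝[>] 0) (𝓝 (γ ^ 2)⁻¹) := by
        have hσ : Tendsto (fun σ : ℝ => σ ^ 2 + (γ + σ * u) ^ 2) (𝓝[>] 0) (𝓝 (γ ^ 2)) := by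
          have : Tendsto (fun σ : ℝ => σ ^ 2 + (γ + σ * u) ^ 2) (𝓝 0)
              (𝓝 ((0 : ℝ) ^ 2 + (γ + 0 * u) ^ 2)) := by
            apply Continuous.tendsto
            fun_prop
          simp only [zero_mul, add_zero, ne_eq, OfNat.ofNat_ne_zero, not_false_eq_true, zero_pow,
            zero_add] at this
          exact this.mono_left nhdsWithin_le_nhds
        exact hσ.inv₀ (by positivity)
      have hmain := (hnum.pow 2).mul hden
      rw [div_pow, Real.sq_sqrt (by positivity), div_eq_mul_inv] at hmain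
      refine hmain.congr' ?_
      filter_upwards [hev] with σ h
      simp only [hFσ]
      rw [indicator_of_mem (show u ∈ {u : ℝ | |σ * u| ≤ ε} from h)]
  have hval : ∫ u : ℝ, (m : ℝ) ^ 2 * (1 + u ^ 2)⁻¹ * (γ ^ 2)⁻¹ = (m : ℝ) ^ 2 * (Real.pi / γ ^ 2) := by
    rw [integral_mul_const, integral_const_mul, integral_univ_inv_one_add_sq]
    ring
  rw [hval] at hlim
  refine hlim.congr' ?_
  filter_upwards [self_mem_nhdsWithin] with σ hσ
  exact (key σ hσ).symm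

end Pool.Agent.Helper16.CR
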