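import Mathlib

/-!
CR, leaf K2a: the Poisson kernel on a window.
-/

set_option autoImplicit false

namespace Pool.Agent.Helper16.CR

open Complex Filter Topology MeasureTheory Set Metric

/-- K2a. Poisson kernel on a window (Mathlib only) -/
theorem poisson_window (γ ε : ℝ) (hε : 0 < ε) (hεγ : ε < |γ|) :
    Tendsto (fun σ : ℝ => σ * ∫ τ in Icc (γ - ε) (γ + ε),
      (‖(σ : ℂ) + (τ : ℂ) * I - (γ : ℂ) * I‖ ^ 2)⁻¹ * (‖(σ : ℂ) + (τ : ℂ) * I‖ ^ 2)⁻¹) (𝓝[>] 0)
      (𝓝 (Real.pi / γ ^ 2)) := by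
  have hγ : γ ≠ 0 := by
    intro h0
    rw [h0, abs_zero] at hεγ
    linarith
  have n1 : ∀ σ τ : ℝ, ‖(σ : ℂ) + (τ : ℂ) * I - (γ : ℂ) * I‖ ^ 2 = σ ^ 2 + (τ - γ) ^ 2 := by
    intro σ τ
    rw [Complex.sq_norm, Complex.normSq_apply]
    simp
    ring
  have n2 : ∀ σ τ : ℝ, ‖(σ : ℂ) + (τ : ℂ) * I‖ ^ 2 = σ ^ 2 + τ ^ 2 := by
    intro σ τ
    rw [Complex.sq_norm, Complex.normSq_apply]
    simp
    ring
  simp only [n1, n2]
  set Fσ : ℝ → ℝ → ℝ := fun σ u => indicator {u : ℝ | |σ * u| ≤ ε}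
    (fun u => (1 + u ^ 2)⁻¹ * (σ ^ 2 + (γ + σ * u) ^ 2)⁻¹) u with hF
  have key : ∀ σ : ℝ, 0 < σ → σ * ∫ τ in Icc (γ - ε) (γ + ε),
      (σ ^ 2 + (τ - γ) ^ 2)⁻¹ * (σ ^ 2 + τ ^ 2)⁻¹ = ∫ u, Fσ σ u := by
    intro σ hσ
    set g : ℝ → ℝ := indicator (Icc (γ - ε) (γ + ε))
      (fun τ => (σ ^ 2 + (τ - γ) ^ 2)⁻¹ * (σ ^ 2 + τ ^ 2)⁻¹) with hg
    have h1 : ∫ τ in Icc (γ - ε) (γ + ε), (σ ^ 2 + (τ - γ) ^ 2)⁻¹ * (σ ^ 2 + τ ^ 2)⁻¹ = ∫ τ, g τ := by
      rw [hg, integral_indicator measurableSet_Icc]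
    have h2 : ∫ τ, g τ = ∫ y, g (γ + y) := (integral_add_left_eq_self g γ).symm
    have h3 : ∫ u, g (γ + σ * u) = |σ⁻¹| • ∫ y, g (γ + y) :=
      MeasureTheory.Measure.integral_comp_mul_left (fun y => g (γ + y)) σ
    have h4 : ∫ y, g (γ + y) = σ * ∫ u, g (γ + σ * u) := by
      rw [h3, abs_of_pos (inv_pos.2 hσ), smul_eq_mul, ← mul_assoc, mul_inv_cancel₀ hσ.ne', one_mul]
    rw [h1, h2, h4, ← mul_assoc, ← integral_const_mul]
    congr 1
    funext u
    by_cases hu : |σ * u| ≤ ε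
    · have hmem : γ + σ * u ∈ Icc (γ - ε) (γ + ε) := by
        have := abs_le.1 hu
        constructor <;> linarith [this.1, this.2]
      rw [hg, indicator_of_mem hmem, hF]
      simp only
      rw [indicator_of_mem (show u ∈ {u : ℝ | |σ * u| ≤ ε} from hu)]
      have e : σ ^ 2 + (γ + σ * u - γ) ^ 2 = σ ^ 2 * (1 + u ^ 2) := by ring
      rw [e, mul_inv]
      field_simp
    · have hmem : γ + σ * u ∉ Icc (γ - ε) (γ + ε) := by
        intro h
        apply hu
        rw [abs_le]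
        constructor <;> linarith [h.1, h.2]
      rw [hg, indicator_of_notMem hmem, hF]
      simp only
      rw [indicator_of_notMem (show u ∉ {u : ℝ | |σ * u| ≤ ε} from hu), mul_zero]
  have hlim : Tendsto (fun σ : ℝ => ∫ u, Fσ σ u) (𝓝[>] 0) (𝓝 (∫ u : ℝ, (1 + u ^ 2)⁻¹ * (γ ^ 2)⁻¹)) := by
    refine tendsto_integral_filter_of_dominated_convergence
      (fun u : ℝ => (1 + u ^ 2)⁻¹ * ((|γ| - ε) ^ 2)⁻¹) ?_ ?_ ?_ ?_
    · filter_upwards with σ
      refine Measurable.aestronglyMeasurable ?_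
      refine Measurable.indicator (by fun_prop) ?_
      exact measurableSet_le (by fun_prop) (by fun_prop)
    · filter_upwards with σ
      filter_upwards with u
      have hpos : 0 < |γ| - ε := by linarith
      by_cases hu : |σ * u| ≤ ε
      · simp only [hF]
        rw [indicator_of_mem (show u ∈ {u : ℝ | |σ * u| ≤ ε} from hu), Real.norm_eq_abs,
          abs_of_nonneg (by positivity)]
        refine mul_le_mul_of_nonneg_left ?_ (by positivity)
        apply inv_anti₀ (by positivity)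
        have h1 : |γ| - ε ≤ |γ + σ * u| := by
          have := abs_sub_abs_le_abs_sub γ (-(σ * u))
          rw [abs_neg, sub_neg_eq_add] at this
          linarith
        have h2 : (|γ| - ε) ^ 2 ≤ (γ + σ * u) ^ 2 := by
          rw [← sq_abs (γ + σ * u)]
          exact pow_le_pow_left₀ hpos.le h1 2
        nlinarith [sq_nonneg σ]
      · simp only [hF]
        rw [indicator_of_notMem (show u ∉ {u : ℝ | |σ * u| ≤ ε} from hu), norm_zero]
        positivity
    · exact integrable_inv_one_add_sq.mul_const _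
    · filter_upwards with u
      have hc : Tendsto (fun σ : ℝ => σ * u) (𝓝[>] 0) (𝓝 0) := by
        have : Tendsto (fun σ : ℝ => σ * u) (𝓝 0) (𝓝 (0 * u)) :=
          (continuous_id.mul continuous_const).tendsto 0
        rw [zero_mul] at this
        exact this.mono_left nhdsWithin_le_nhds
      have hev : ∀ᶠ σ : ℝ in 𝓝[>] 0, |σ * u| ≤ ε := by
        have := (hc.abs).eventually (eventually_lt_nhds (by rwa [abs_zero] : |(0 : ℝ)| < ε))
        filter_upwards [this] with σ h using h.le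
      have hmain : Tendsto (fun σ : ℝ => (1 + u ^ 2)⁻¹ * (σ ^ 2 + (γ + σ * u) ^ 2)⁻¹) (𝓝[>] 0)
          (𝓝 ((1 + u ^ 2)⁻¹ * (γ ^ 2)⁻¹)) := by
        have hσ : Tendsto (fun σ : ℝ => σ ^ 2 + (γ + σ * u) ^ 2) (𝓝[>] 0) (𝓝 (γ ^ 2)) := by
          have : Tendsto (fun σ : ℝ => σ ^ 2 + (γ + σ * u) ^ 2) (𝓝 0)
              (𝓝 ((0 : ℝ) ^ 2 + (γ + 0 * u) ^ 2)) := by
            apply Continuous.tendsto
            fun_prop
          simp only [zero_mul, add_zero, ne_eq, OfNat.ofNat_ne_zero, not_false_eq_true, zero_pow,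
            zero_add] at this
          exact this.mono_left nhdsWithin_le_nhds
        exact (hσ.inv₀ (by positivity)).const_mul _
      refine hmain.congr' ?_
      filter_upwards [hev] with σ h
      simp only [hF]
      rw [indicator_of_mem (show u ∈ {u : ℝ | |σ * u| ≤ ε} from h)]
  have hval : ∫ u : ℝ, (1 + u ^ 2)⁻¹ * (γ ^ 2)⁻¹ = Real.pi / γ ^ 2 := by
    rw [integral_mul_const, integral_univ_inv_one_add_sq]
    rfl
  rw [hval] at hlim
  refine hlim.congr' ?_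
  filter_upwards [self_mem_nhdsWithin] with σ hσ
  exact (key σ hσ).symm

end Pool.Agent.Helper16.CR
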